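import Mathlib

set_option autoImplicit false

/-!
# The cyclic subfields of the `p`-th cyclotomic field
-/

namespace Pool.Agent.U208.LD

open IntermediateField Module

/-- the algebraic numbers -/
abbrev Qb := AlgebraicClosure ℚ

instance qbInt : Algebra.IsIntegral ℚ Qb :=
  ⟨fun x => ((AlgebraicClosure.isAlgebraic ℚ).isAlgebraic x).isIntegral⟩

/-- the layer of degree dividing `n` inside the `p`-th cyclotomic field -/
theorem exists_layer (p : ℕ) [Fact p.Prime] (n : ℕ) (hn : 0 < n) :
    ∃ (E L : IntermediateField ℚ Qb) (z : Qb), z ∈ E ∧ IsPrimitiveRoot z p ∧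
      IsCyclotomicExtension {p} ℚ E ∧ L ≤ E ∧ Normal ℚ L ∧ FiniteDimensional ℚ L ∧
      finrank ℚ L ≤ n ∧
      ∀ (Ω : Type) [Field Ω] [Algebra ℚ Ω] (ι ι' : Qb →ₐ[ℚ] Ω) (s : ℕ), s.Coprime p →
        ι' z = ι z ^ s → (∀ x ∈ L, ι' x = ι x) → ∃ a : (ZMod p)ˣ, (s : ZMod p) = a ^ n := by
  have hp : p.Prime := Fact.out
  have hpne : NeZero p := ⟨hp.ne_zero⟩
  have hpne' : NeZero ((p : ℕ) : Qb) := ⟨by exact_mod_cast hp.ne_zero⟩
  obtain ⟨z, hz⟩ := HasEnoughRootsOfUnity.exists_primitiveRoot Qb p
  set E : IntermediateField ℚ Qb := IntermediateField.adjoin ℚ {z} with hEdef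
  have hE : IsCyclotomicExtension {p} ℚ E := hz.intermediateField_adjoin_isCyclotomicExtension ℚ
  have hzE : z ∈ E := IntermediateField.mem_adjoin_simple_self ℚ z
  have hEfd : FiniteDimensional ℚ E := IsCyclotomicExtension.finiteDimensional {p} ℚ E
  have hEnf : NumberField E := { to_charZero := inferInstance, to_finiteDimensional := hEfd }
  have hEgal : IsGalois ℚ E := IsCyclotomicExtension.isGalois {p} ℚ E
  let χ := IsCyclotomicExtension.Rat.galEquivZMod p E
  let H : Subgroup Gal(E/ℚ) := (powMonoidHom n : (ZMod p)ˣ →* (ZMod p)ˣ).range.comap χ.toMonoidHom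
  have hHn : H.Normal := Subgroup.Normal.comap inferInstance _
  have hHi : H.index = (Nat.card (ZMod p)ˣ).gcd n := by
    have := Subgroup.index_comap_of_surjective
      (H := (powMonoidHom n : (ZMod p)ˣ →* (ZMod p)ˣ).range) (f := χ.toMonoidHom) χ.surjective
    rw [this, IsCyclic.index_powMonoidHom_range]
  let L' : IntermediateField ℚ E := IntermediateField.fixedField H
  have hL'n : Normal ℚ L' := by
    have : IsGalois ℚ L' := IsGalois.of_fixedField_normal_subgroup H
    infer_instance
  have hL'r : finrank ℚ L' = H.index := by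
    have h1 : finrank ℚ L' * finrank L' E = finrank ℚ E := finrank_mul_finrank ℚ L' E
    have h2 : finrank L' E = Nat.card H := IntermediateField.finrank_fixedField_eq_card H
    have h3 : Nat.card H * H.index = Nat.card Gal(E/ℚ) := H.card_mul_index
    have h4 : Nat.card Gal(E/ℚ) = finrank ℚ E := IsGalois.card_aut_eq_finrank ℚ E
    rw [h2, ← h4, ← h3, mul_comm] at h1
    exact Nat.eq_of_mul_eq_mul_left Nat.card_pos h1
  let L : IntermediateField ℚ Qb := IntermediateField.lift L'
  have hLe : L ≃ₐ[ℚ] L' := (IntermediateField.liftAlgEquiv L').symm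
  refine ⟨E, L, z, hzE, hz, hE, IntermediateField.lift_le L', Normal.of_algEquiv hLe.symm,
    hLe.symm.toLinearEquiv.finiteDimensional, ?_, ?_⟩
  · rw [hLe.toLinearEquiv.finrank_eq, hL'r, hHi]
    exact Nat.gcd_le_right _ hn
  · intro Ω _ _ ι ι' s hs hιz hιL
    -- the automorphism of `E` with exponent `s`
    let u : (ZMod p)ˣ := ZMod.unitOfCoprime s hs
    let σ : Gal(E/ℚ) := χ.symm u
    have hσz : (σ ⟨z, hzE⟩ : E) = (⟨z, hzE⟩ : E) ^ s := by
      have h1 : (⟨z, hzE⟩ : E) ^ p = 1 := by
        apply Subtype.ext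
        simpa using hz.pow_eq_one
      rw [IsCyclotomicExtension.Rat.galEquivZMod_apply_of_pow_eq p E σ h1]
      have h2 : (χ σ).val.val = s % p := by
        have : χ σ = u := χ.apply_symm_apply u
        rw [this]
        simp [u, ZMod.coe_unitOfCoprime, ZMod.val_natCast]
      change (⟨z, hzE⟩ : E) ^ (χ σ).val.val = _
      rw [h2]
      conv_rhs => rw [← Nat.mod_add_div s p, pow_add, pow_mul, h1, one_pow, mul_one]
    have hcomp : ∀ x : E, ι (σ x : E) = ι' x := by
      let f : E →ₐ[ℚ] Ω := (ι.comp E.val).comp σ.toAlgHom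
      let g : E →ₐ[ℚ] Ω := ι'.comp E.val
      have hfg : f = g := by
        apply IntermediateField.algHom_ext_of_eq_adjoin ℚ hEdef
        intro x hx
        have hx' : x = z := hx
        subst hx'
        change ι ((σ ⟨x, hzE⟩ : E) : Qb) = ι' x
        rw [hσz, hιz]
        simp
      intro x
      exact DFunLike.congr_fun hfg x
    have hσH : σ ∈ H := by
      have h1 : IntermediateField.fixingSubgroup L' = H :=
        IntermediateField.fixingSubgroup_fixedField H
      rw [← h1, IntermediateField.mem_fixingSubgroup_iff]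
      intro x hx
      have hxL : (x : Qb) ∈ L := (IntermediateField.mem_lift x).mpr hx
      have h2 := hιL _ hxL
      rw [← hcomp] at h2
      exact Subtype.ext (ι.injective h2)
    obtain ⟨a, ha⟩ := hσH
    refine ⟨a, ?_⟩
    have h3 : χ σ = u := χ.apply_symm_apply u
    have h4 : a ^ n = u := by
      have : (powMonoidHom n) a = χ σ := ha
      rw [h3] at this
      exact this
    have h5 := congrArg (fun v : (ZMod p)ˣ => (v : ZMod p)) h4
    simp only [Units.val_pow_eq_pow_val] at h5
    rw [h5]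
    exact (ZMod.coe_unitOfCoprime s hs).symm

end Pool.Agent.U208.LD
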