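import Mathlib
import Pool.Agent.U208.LD.Cyc

set_option autoImplicit false

namespace Pool.Agent.U208.LD

open IsDedekindDomain NumberField

theorem galois_extend (K F₀ : IntermediateField ℚ Qb) (hle : K ≤ F₀) (hn : Normal ℚ F₀) :
    IsGalois K (IntermediateField.extendScalars hle) := by
  have h1 : Normal ℚ (IntermediateField.extendScalars hle) := by
    let e : F₀ ≃+* (IntermediateField.extendScalars hle : IntermediateField K Qb) :=
      RingEquiv.refl F₀
    let e' : F₀ ≃ₐ[ℚ] (IntermediateField.extendScalars hle : IntermediateField K Qb) :=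
      AlgEquiv.ofRingEquiv (f := e) (fun r => by simp)
    exact Normal.of_algEquiv e'
  have h2 : IsGalois ℚ (IntermediateField.extendScalars hle) := ⟨⟩
  exact IsGalois.tower_top_of_isGalois ℚ K (IntermediateField.extendScalars hle)

theorem exists_iota (K : IntermediateField ℚ Qb) [NumberField K]
    (v : HeightOneSpectrum (𝓞 K)) :
    Nonempty (AlgebraicClosure ℚ →ₐ[K] AlgebraicClosure (v.adicCompletion K)) := by
  have h1 : Algebra.IsAlgebraic K (AlgebraicClosure ℚ) := ⟨fun x =>
    ((qbInt.isIntegral x).tower_top (A := K)).isAlgebraic⟩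
  have h2 : Module.IsTorsionFree K (AlgebraicClosure (v.adicCompletion K)) := inferInstance
  exact ⟨IsAlgClosed.lift⟩

end Pool.Agent.U208.LD
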