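import Mathlib

set_option autoImplicit false

/-!
# The Frobenius automorphism of a local field on the roots of unity of order prime to the residue
characteristic
-/

namespace Pool.Agent.U208.LD

open IsLocalRing

theorem exists_frob_fin {A k : Type} [CommRing A] [IsDomain A] [IsLocalRing A]
    [IsIntegrallyClosed A] [IsNoetherianRing A] [Field k] [CharZero k] [Algebra A k]
    [IsFractionRing A k] [Finite (ResidueField A)] (N : Type) [Field N] [Algebra k N]
    [FiniteDimensional k N] [IsGalois k N] (ζ : N) (p : ℕ) (hζ : ζ ^ p = 1) (hp0 : 0 < p)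
    (hp : (p : A) ∉ maximalIdeal A) :
    ∃ σ : N ≃ₐ[k] N, σ ζ = ζ ^ Nat.card (ResidueField A) := by
  let : Algebra A N := ((algebraMap k N).comp (algebraMap A k)).toAlgebra
  have : IsScalarTower A k N := IsScalarTower.of_algebraMap_eq fun _ => rfl
  let B := integralClosure A N
  let : MulSemiringAction Gal(N/k) B := IsIntegralClosure.MulSemiringAction A k N B
  have hfr : IsFractionRing B N := IsIntegralClosure.isFractionRing_of_finite_extension A k N B
  have hinv : Algebra.IsInvariant A B Gal(N/k) := Algebra.isInvariant_of_isGalois A k N B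
  have : SMulCommClass Gal(N/k) A B := by
    refine ⟨fun g a b => ?_⟩
    exact map_smul (galRestrict A k N B g) a b
  have hfin : Module.Finite A B := IsIntegralClosure.finite A k N B
  have : Algebra.IsIntegral A B := inferInstance
  obtain ⟨Q, hQ⟩ := Ideal.exists_maximal B
  have hunder : Q.under A = maximalIdeal A :=
    IsLocalRing.eq_maximalIdeal (Ideal.isMaximal_comap_of_isIntegral_of_isMaximal Q)
  have : Finite (A ⧸ Q.under A) := by
    rw [hunder]
    exact (inferInstance : Finite (ResidueField A))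
  have : Module.Finite (A ⧸ Q.under A) (B ⧸ Q) :=
    Module.Finite.of_restrictScalars_finite A (A ⧸ Q.under A) (B ⧸ Q)
  have : Finite (B ⧸ Q) := Module.finite_of_finite (A ⧸ Q.under A)
  obtain ⟨σ, hσ⟩ := IsArithFrobAt.exists_of_isInvariant A Gal(N/k) Q
  have hζint : IsIntegral A ζ := by
    refine ⟨Polynomial.X ^ p - 1, Polynomial.monic_X_pow_sub_C 1 hp0.ne', ?_⟩
    simp [hζ]
  let z : B := ⟨ζ, hζint⟩
  have hz : z ^ p = 1 := Subtype.ext hζ
  have hpQ : ((p : ℕ) : B) ∉ Q := by
    intro h
    apply hp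
    rw [← hunder]
    change algebraMap A B (p : A) ∈ Q
    rw [map_natCast]
    exact h
  have h1 := AlgHom.IsArithFrobAt.apply_of_pow_eq_one hσ hz hpQ
  refine ⟨σ, ?_⟩
  have h2 : Nat.card (A ⧸ Q.under A) = Nat.card (ResidueField A) := by
    rw [hunder]; rfl
  rw [h2] at h1
  have h3 : ((σ • z : B) : N) = σ ζ := algebraMap_galRestrict_apply A σ z
  rw [← h3]
  have h4 := congrArg (fun b : B => (b : N)) h1
  exact h4

theorem exists_frob_cl {A k : Type} [CommRing A] [IsDomain A] [IsLocalRing A]
    [IsIntegrallyClosed A] [IsNoetherianRing A] [Field k] [CharZero k] [Algebra A k]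
    [IsFractionRing A k] [Finite (ResidueField A)] (ζ : AlgebraicClosure k) (p : ℕ)
    (hζ : ζ ^ p = 1) (hp0 : 0 < p) (hp : (p : A) ∉ maximalIdeal A) :
    ∃ σ : AlgebraicClosure k ≃ₐ[k] AlgebraicClosure k,
      σ ζ = ζ ^ Nat.card (ResidueField A) := by
  have : IsGalois k (AlgebraicClosure k) := inferInstance
  let N := (FiniteGaloisIntermediateField.adjoin k {ζ}).toIntermediateField
  have hζN : ζ ∈ N := FiniteGaloisIntermediateField.subset_adjoin k {ζ} rfl
  have : FiniteDimensional k N := (FiniteGaloisIntermediateField.adjoin k {ζ}).finiteDimensional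
  have : IsGalois k N := (FiniteGaloisIntermediateField.adjoin k {ζ}).isGalois
  obtain ⟨σ, hσ⟩ := exists_frob_fin (A := A) (k := k) N ⟨ζ, hζN⟩ p (Subtype.ext hζ) hp0 hp
  refine ⟨AlgEquiv.liftNormal σ (AlgebraicClosure k), ?_⟩
  have h1 := AlgEquiv.liftNormal_commutes σ (AlgebraicClosure k) ⟨ζ, hζN⟩
  rw [hσ] at h1
  exact h1

end Pool.Agent.U208.LD
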