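import Mathlib

set_option autoImplicit false

/-!
# Primes `p` for which an odd number has an order divisible by almost the full power of two
-/

namespace Pool.Agent.U208.LD

/-- a number all of whose prime factors are one modulo `m` is one modulo `m` -/
lemma modEq_one (m : ℕ) : ∀ N : ℕ, N ≠ 0 → (∀ p : ℕ, p.Prime → p ∣ N → p ≡ 1 [MOD m]) →
    N ≡ 1 [MOD m] := by
  intro N
  induction N using Nat.recOnMul with
  | zero => intro h; exact absurd rfl h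
  | one => intro _ _; rfl
  | prime p hp => intro _ h; exact h p hp dvd_rfl
  | mul a b iha ihb =>
    intro h0 h
    have ha0 : a ≠ 0 := left_ne_zero_of_mul h0
    have hb0 : b ≠ 0 := right_ne_zero_of_mul h0
    have ha := iha ha0 fun p hp hpa => h p hp (hpa.mul_right b)
    have hb := ihb hb0 fun p hp hpb => h p hp (hpb.mul_left a)
    simpa using ha.mul hb

/-- an upper bound for the power of two in `q ^ (2 ^ e) - 1` -/
lemma not_dvd (q c : ℤ) (hq : Odd q) (hc : ¬ (2 : ℤ) ^ c.toNat ∣ q ^ 2 - 1) :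
    ∀ e : ℕ, ¬ (2 : ℤ) ^ (c.toNat + e) ∣ q ^ (2 ^ (e + 1)) - 1 := by
  intro e
  induction e with
  | zero => simpa using hc
  | succ e ih =>
    intro h
    apply ih
    have e1 : q ^ (2 ^ (e + 1 + 1)) - 1 = (q ^ (2 ^ (e + 1)) - 1) * (q ^ (2 ^ (e + 1)) + 1) := by
      ring
    have h1 : ∃ u : ℤ, q ^ (2 ^ (e + 1)) + 1 = 2 * (2 * u + 1) := by
      obtain ⟨t, ht⟩ := hq.pow (n := 2 ^ e)
      refine ⟨t * (t + 1), ?_⟩
      have : q ^ (2 ^ (e + 1)) = (q ^ (2 ^ e)) ^ 2 := by rw [← pow_mul, pow_succ]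
      rw [this, ht]; ring
    obtain ⟨u, hu⟩ := h1
    rw [e1, hu, ← add_assoc, pow_succ] at h
    have h2 : (2 : ℤ) ^ (c.toNat + e) * 2 ∣ ((q ^ (2 ^ (e + 1)) - 1) * (2 * u + 1)) * 2 := by
      refine h.trans (dvd_of_eq (by ring))
    have h3 := Int.dvd_of_mul_dvd_mul_right (by norm_num) h2
    have hcop : IsCoprime ((2 : ℤ) ^ (c.toNat + e)) (2 * u + 1) := by
      apply IsCoprime.pow_left
      exact ⟨-u, 1, by ring⟩
    exact hcop.dvd_of_dvd_mul_right h3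

/-- the primes we use -/
theorem exists_prime (q : ℕ) (hq : Odd q) (hq1 : 1 < q) : ∃ c : ℕ, ∀ k : ℕ, 2 ≤ k →
    ∃ p : ℕ, p.Prime ∧ (q : ZMod p) ^ (2 ^ (k - 1)) = -1 ∧ p ≠ 2 ∧ ¬ 2 ^ (k + c) ∣ p - 1 := by
  -- choose `c` with `2 ^ c` not dividing `q ^ 2 - 1`
  have hpos : (0 : ℤ) < (q : ℤ) ^ 2 - 1 := by
    have : (1 : ℤ) < q := by exact_mod_cast hq1
    nlinarith
  obtain ⟨c, hc⟩ : ∃ c : ℕ, ¬ (2 : ℤ) ^ c ∣ (q : ℤ) ^ 2 - 1 := by
    obtain ⟨c, hc⟩ := pow_unbounded_of_one_lt ((q : ℤ) ^ 2 - 1) (by norm_num : (1 : ℤ) < 2)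
    exact ⟨c, fun h => absurd (Int.le_of_dvd hpos h) (not_le.mpr hc)⟩
  refine ⟨c + 1, fun k hk => ?_⟩
  have hqz : Odd (q : ℤ) := by exact_mod_cast hq
  obtain ⟨e, rfl⟩ : ∃ e, k = e + 2 := ⟨k - 2, by omega⟩
  have hnd := not_dvd q c hqz (by simpa using hc) e
  simp only [Int.toNat_natCast] at hnd
  have hk1 : e + 2 - 1 = e + 1 := by omega
  rw [hk1]
  -- half of `q ^ (2 ^ (e + 1)) + 1`
  obtain ⟨t, ht⟩ : ∃ t : ℕ, q ^ (2 ^ e) = 2 * t + 1 := hq.pow (n := 2 ^ e)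
  have hN : q ^ (2 ^ (e + 1)) + 1 = 2 * (2 * (t * (t + 1)) + 1) := by
    have : q ^ (2 ^ (e + 1)) = (q ^ (2 ^ e)) ^ 2 := by rw [← pow_mul, pow_succ]
    rw [this, ht]; ring
  set N := 2 * (t * (t + 1)) + 1 with hNdef
  by_contra hcon
  push Not at hcon
  have hall : ∀ p : ℕ, p.Prime → p ∣ N → p ≡ 1 [MOD 2 ^ (e + 2 + (c + 1))] := by
    intro p hp hpN
    have hpz : (q : ZMod p) ^ (2 ^ (e + 1)) = -1 := by
      have h1 : p ∣ q ^ (2 ^ (e + 1)) + 1 := hN ▸ hpN.mul_left 2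
      have h2 : ((q ^ (2 ^ (e + 1)) + 1 : ℕ) : ZMod p) = 0 :=
        (ZMod.natCast_eq_zero_iff _ _).mpr h1
      push_cast at h2
      exact eq_neg_of_add_eq_zero_left h2
    have hp2 : p ≠ 2 := by
      rintro rfl
      omega
    have h3 := hcon p hp hpz hp2
    have := (Nat.modEq_iff_dvd' hp.one_lt.le).mpr h3
    exact this.symm
  have hmod := modEq_one _ N (by omega) hall
  apply hnd
  have h4 : (2 : ℤ) ^ (e + 2 + (c + 1)) ∣ (N : ℤ) - 1 := by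
    have := (Nat.modEq_iff_dvd.mp hmod.symm)
    push_cast at this
    exact this
  have h5 : (q : ℤ) ^ (2 ^ (e + 1)) - 1 = 2 * ((N : ℤ) - 1) := by
    have : (q : ℤ) ^ (2 ^ (e + 1)) + 1 = 2 * N := by exact_mod_cast hN
    linarith
  rw [h5]
  refine Dvd.dvd.mul_left ?_ 2
  exact (pow_dvd_pow 2 (by omega)).trans h4

/-- the final divisibility -/
theorem pow_dvd (p q k c j m : ℕ) (hp : p.Prime) (hp2 : p ≠ 2) (hk : 1 ≤ k)
    (hqk : (q : ZMod p) ^ (2 ^ (k - 1)) = -1) (hc : ¬ 2 ^ (k + c) ∣ p - 1)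
    (hj : 2 ^ j ∣ p - 1) (a : (ZMod p)ˣ) (ha : (q : ZMod p) ^ m = (a : ZMod p) ^ (2 ^ j)) :
    2 ^ j ∣ m * 2 ^ c := by
  have := Fact.mk hp
  have h10 : (-1 : ZMod p) ≠ 1 := by
    have : Fact (2 < p) := ⟨lt_of_le_of_ne hp.two_le (Ne.symm hp2)⟩
    exact ZMod.neg_one_ne_one
  have hord : orderOf (q : ZMod p) = 2 ^ k := by
    obtain ⟨k, rfl⟩ : ∃ l, k = l + 1 := ⟨k - 1, by omega⟩
    simp only [Nat.add_sub_cancel] at hqk
    apply orderOf_eq_prime_pow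
    · rw [hqk]; exact h10
    · rw [pow_succ, pow_mul, hqk]; norm_num
  obtain ⟨w, hw⟩ := hj
  have h1 : (q : ZMod p) ^ (m * w) = 1 := by
    rw [pow_mul, ha, ← pow_mul, ← hw, ← Units.val_pow_eq_pow_val, ZMod.units_pow_card_sub_one_eq_one]
    rfl
  have h2 : 2 ^ k ∣ m * w := by
    rw [← hord]; exact orderOf_dvd_of_pow_eq_one h1
  have h3 : 2 ^ k * 2 ^ j ∣ m * (p - 1) := by
    rw [hw]
    refine (Nat.mul_dvd_mul_right h2 (2 ^ j)).trans (dvd_of_eq (by ring))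
  -- split off the odd part of `p - 1`
  have hp1 : p - 1 ≠ 0 := by have := hp.two_le; omega
  obtain ⟨e, u, hu, hpe⟩ := Nat.exists_eq_two_pow_mul_odd hp1
  have hek : e ≤ k + c := by
    by_contra h
    push Not at h
    exact hc ((pow_dvd_pow 2 h.le).trans (hpe ▸ dvd_mul_right _ _))
  have h4 : 2 ^ k * 2 ^ j ∣ m * 2 ^ e := by
    have hcop : Nat.Coprime (2 ^ k * 2 ^ j) u := by
      rw [← pow_add]
      exact Nat.Coprime.pow_left _ ((Nat.coprime_two_left).mpr hu)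
    apply hcop.dvd_of_dvd_mul_right
    refine h3.trans (dvd_of_eq ?_)
    rw [hpe]; ring
  have h5 : 2 ^ k * 2 ^ j ∣ m * 2 ^ (k + c) := h4.trans (mul_dvd_mul_left m (pow_dvd_pow 2 hek))
  have h6 : 2 ^ k * 2 ^ j ∣ 2 ^ k * (m * 2 ^ c) := h5.trans (dvd_of_eq (by rw [pow_add]; ring))
  exact Nat.dvd_of_mul_dvd_mul_left (by positivity) h6

end Pool.Agent.U208.LD
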