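import Mathlib
import Pool.Agent.H58W.HtLimit
import Pool.Agent.H58W.HtNorth
import Pool.Agent.U208.LD.Arith
import Pool.Agent.U208.LD.Cyc

set_option autoImplicit false

/-!
# One step of the tower
-/

namespace Pool.Agent.U208.LD

open IntermediateField Module NumberField
open Pool.Agent.Helper259.AbsHt

/-- two number fields with coprime discriminants meet in the rational numbers -/
lemma inf_eq_bot (K₁ K₂ : IntermediateField ℚ Qb) [NumberField K₁] [NumberField K₂]
    (h : IsCoprime (discr K₁) (discr K₂)) : K₁ ⊓ K₂ = ⊥ := by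
  have hle1 : K₁ ⊓ K₂ ≤ K₁ := inf_le_left
  have hle2 : K₁ ⊓ K₂ ≤ K₂ := inf_le_right
  have hfd : FiniteDimensional ℚ (K₁ ⊓ K₂ : IntermediateField ℚ Qb) :=
    Module.Finite.of_injective (IntermediateField.inclusion hle1).toLinearMap
      (IntermediateField.inclusion_injective hle1)
  have hnf : NumberField (K₁ ⊓ K₂ : IntermediateField ℚ Qb) :=
    { to_charZero := inferInstance, to_finiteDimensional := hfd }
  have hunit : IsUnit (discr (K₁ ⊓ K₂ : IntermediateField ℚ Qb)) := by
    have a1 : Algebra (K₁ ⊓ K₂ : IntermediateField ℚ Qb) K₁ :=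
      (IntermediateField.inclusion hle1).toRingHom.toAlgebra
    have a2 : Algebra (K₁ ⊓ K₂ : IntermediateField ℚ Qb) K₂ :=
      (IntermediateField.inclusion hle2).toRingHom.toAlgebra
    exact h.isUnit_of_dvd' (NumberField.discr_dvd_discr _ _) (NumberField.discr_dvd_discr _ _)
  by_contra hne
  have h1 : 1 < finrank ℚ (K₁ ⊓ K₂ : IntermediateField ℚ Qb) := by
    refine Nat.one_lt_iff_ne_zero_and_ne_one.mpr ⟨Module.finrank_pos.ne', ?_⟩
    intro h2
    exact hne (IntermediateField.finrank_eq_one_iff.mp h2)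
  have h3 := abs_discr_gt_two h1
  rw [Int.isUnit_iff_abs_eq.mp hunit] at h3
  omega

lemma disj (K : IntermediateField ℚ Qb) [FiniteDimensional ℚ K] (x : Qb) :
    ∃ T : ℕ, ∀ p : ℕ, p.Prime → T < p → ∀ E : IntermediateField ℚ Qb,
      IsCyclotomicExtension {p} ℚ E → x ∈ K ⊔ E → x ∈ K := by
  have hxfd : FiniteDimensional ℚ (IntermediateField.adjoin ℚ {x}) :=
    IntermediateField.adjoin.finiteDimensional (qbInt.isIntegral x)
  set M : IntermediateField ℚ Qb := K ⊔ IntermediateField.adjoin ℚ {x} with hM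
  have hMfd : FiniteDimensional ℚ M := inferInstance
  have hMnf : NumberField M := { to_charZero := inferInstance, to_finiteDimensional := hMfd }
  refine ⟨(discr M).natAbs, fun p hp hTp E hE hx => ?_⟩
  have : Fact p.Prime := ⟨hp⟩
  have : NeZero p := ⟨hp.ne_zero⟩
  have hEfd : FiniteDimensional ℚ E := IsCyclotomicExtension.finiteDimensional {p} ℚ E
  have hEnf : NumberField E := { to_charZero := inferInstance, to_finiteDimensional := hEfd }
  have hEgal : IsGalois ℚ E := IsCyclotomicExtension.isGalois {p} ℚ E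
  have hcop : IsCoprime (discr E) (discr M) := by
    have h1 : ¬ p ∣ (discr M).natAbs := by
      intro h
      have := Nat.le_of_dvd (Int.natAbs_pos.mpr (discr_ne_zero M)) h
      omega
    have h2 : IsCoprime (p : ℤ) (discr M) := by
      rw [Int.isCoprime_iff_gcd_eq_one, Int.gcd, Int.natAbs_natCast]
      exact (Nat.Prime.coprime_iff_not_dvd hp).mpr h1
    have h3 : discr E = (-1) ^ ((p - 1) / 2) * p ^ (p - 2) :=
      IsCyclotomicExtension.Rat.discr_prime p E
    rw [h3]
    exact IsCoprime.mul_left (isCoprime_one_left.neg_left.pow_left) (h2.pow_left)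
  have hbot := inf_eq_bot E M hcop
  have hld : E.LinearDisjoint M := by
    have hEgal' : @IsGalois ℚ _ E _ (IntermediateField.algebra' E) := hEgal
    exact IntermediateField.LinearDisjoint.of_inf_eq_bot hbot
  have hfr := hld.finrank_sup
  have hle : E ⊔ M ≤ K ⊔ E := by
    refine sup_le le_sup_right (sup_le le_sup_left ?_)
    exact IntermediateField.adjoin_simple_le_iff.mpr hx
  have hfr2 : finrank ℚ (E ⊔ M : IntermediateField ℚ Qb) ≤
      finrank ℚ (K ⊔ E : IntermediateField ℚ Qb) :=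
    LinearMap.finrank_le_finrank_of_injective
      (f := (IntermediateField.inclusion hle).toLinearMap)
      (IntermediateField.inclusion_injective hle)
  have hfr3 : finrank ℚ (K ⊔ E : IntermediateField ℚ Qb) ≤ finrank ℚ K * finrank ℚ E :=
    IntermediateField.finrank_sup_le _ _
  have hpos : 0 < finrank ℚ E := finrank_pos
  have hfr4 : finrank ℚ M ≤ finrank ℚ K := by
    rw [hfr] at hfr2
    have := hfr2.trans hfr3
    rw [mul_comm] at this
    exact Nat.le_of_mul_le_mul_right this hpos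
  have hKM : K = M := IntermediateField.eq_of_le_of_finrank_le le_sup_left hfr4
  rw [hKM]
  exact (le_sup_right : _ ≤ M) (IntermediateField.mem_adjoin_simple_self ℚ x)

/-- `q` acts on the field `L` like an element of order larger than `n` -/
def LP (L : IntermediateField ℚ Qb) (q n : ℕ) : Prop :=
  ∃ (p : ℕ) (z : Qb), p.Prime ∧ q.Coprime p ∧ IsPrimitiveRoot z p ∧
    ∀ (Ω : Type) [Field Ω] [Algebra ℚ Ω] (ι ι' : Qb →ₐ[ℚ] Ω) (m : ℕ), 0 < m → m ≤ n →
      ι' z = ι z ^ (q ^ m) → ¬ ∀ x ∈ L, ι' x = ι x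

theorem stage (K : IntermediateField ℚ Qb) (hK : FiniteDimensional ℚ K) (q : ℕ) (hq : Odd q)
    (hq1 : 1 < q) (n i : ℕ) : ∃ L : IntermediateField ℚ Qb, Normal ℚ L ∧ FiniteDimensional ℚ L ∧
      LP L q n ∧ ∀ x ∈ K ⊔ L, x ∉ K →
        (i : ℝ) * (finrank ℚ (K ⊔ L : IntermediateField ℚ Qb) : ℕ) + i <
          absLogHeight ![1, x] := by
  classical
  obtain ⟨c, hc⟩ := exists_prime q hq hq1
  set j := c + n with hj
  set D := finrank ℚ K * 2 ^ j with hD
  have hS := Pool.Agent.H58W.northcott D ((i : ℝ) * D + i)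
  set S := {x : Qb | (minpoly ℚ x).natDegree ≤ D ∧ absLogHeight ![1, x] ≤ (i : ℝ) * D + i} with hSd
  choose T hT using fun x => disj K x
  obtain ⟨B, hB⟩ : ∃ B : ℕ, ∀ x ∈ S, T x ≤ B := by
    refine ⟨hS.toFinset.sup T, fun x hx => Finset.le_sup (f := T) (hS.mem_toFinset.mpr hx)⟩
  -- the prime
  set k := max 2 (max B j) with hk
  obtain ⟨p, hp, hpq, hp2, hpc⟩ := hc k (le_max_left _ _)
  have hfact : Fact p.Prime := ⟨hp⟩
  have h10 : (-1 : ZMod p) ≠ 1 := by
    have : Fact (2 < p) := ⟨lt_of_le_of_ne hp.two_le (Ne.symm hp2)⟩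
    exact ZMod.neg_one_ne_one
  have hk1 : 2 ≤ k := le_max_left _ _
  have hord : orderOf (q : ZMod p) = 2 ^ k := by
    obtain ⟨k, hk'⟩ : ∃ l, k = l + 1 := ⟨k - 1, by omega⟩
    rw [hk'] at hpq ⊢
    simp only [Nat.add_sub_cancel] at hpq
    apply orderOf_eq_prime_pow
    · rw [hpq]; exact h10
    · rw [pow_succ, pow_mul, hpq]; norm_num
  have hq0 : (q : ZMod p) ≠ 0 := by
    intro h
    rw [h, zero_pow (by positivity)] at hpq
    have : (1 : ZMod p) = 0 := by linear_combination hpq
    exact one_ne_zero this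
  have hcop : q.Coprime p := by
    rw [Nat.coprime_comm]
    refine (Nat.Prime.coprime_iff_not_dvd hp).mpr fun h => hq0 ?_
    exact (ZMod.natCast_eq_zero_iff _ _).mpr h
  have hkd : 2 ^ k ∣ p - 1 := by
    rw [← hord]
    exact ZMod.orderOf_dvd_card_sub_one hq0
  have hjd : 2 ^ j ∣ p - 1 :=
    (pow_dvd_pow 2 ((le_max_right _ _).trans (le_max_right _ _))).trans hkd
  have hBp : B < p := by
    have h1 : 2 ^ k ≤ p - 1 := Nat.le_of_dvd (by have := hp.two_le; omega) hkd
    have h2 : k < 2 ^ k := Nat.lt_two_pow_self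
    have h3 : B ≤ k := (le_max_left _ _).trans (le_max_right _ _)
    omega
  obtain ⟨E, L, z, hzE, hz, hE, hLE, hLn, hLfd, hLr, hL⟩ := exists_layer p (2 ^ j) (by positivity)
  refine ⟨L, hLn, hLfd, ⟨p, z, hp, hcop, hz, ?_⟩, ?_⟩
  · intro Ω _ _ ι ι' m hm0 hmn hιz hιL
    obtain ⟨a, ha⟩ := hL Ω ι ι' (q ^ m) (hcop.pow_left m) hιz hιL
    push_cast at ha
    have h1 := pow_dvd p q k c j m hp hp2 (by omega) hpq hpc hjd a ha
    have h2 : 2 ^ n ∣ m := by
      rw [hj, pow_add, mul_comm m] at h1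
      exact Nat.dvd_of_mul_dvd_mul_left (by positivity) h1
    have h3 := Nat.le_of_dvd hm0 h2
    have h4 : n < 2 ^ n := Nat.lt_two_pow_self
    omega
  · intro x hx hxK
    have hfr : finrank ℚ (K ⊔ L : IntermediateField ℚ Qb) ≤ D :=
      (IntermediateField.finrank_sup_le _ _).trans (Nat.mul_le_mul_left _ hLr)
    by_contra hcon
    push Not at hcon
    apply hxK
    have hxS : x ∈ S := by
      constructor
      · have h1 : minpoly ℚ x = minpoly ℚ (⟨x, hx⟩ : (K ⊔ L : IntermediateField ℚ Qb)) := by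
          rw [← minpoly.algebraMap_eq (algebraMap (K ⊔ L : IntermediateField ℚ Qb) Qb).injective]
          rfl
        rw [h1]
        exact (minpoly.natDegree_le _).trans hfr
      · refine hcon.trans ?_
        have : ((finrank ℚ (K ⊔ L : IntermediateField ℚ Qb) : ℕ) : ℝ) ≤ (D : ℕ) := by
          exact_mod_cast hfr
        have hi : (0 : ℝ) ≤ i := Nat.cast_nonneg _
        nlinarith
    refine hT x p hp ((hB x hxS).trans_lt hBp) E hE ?_
    exact (sup_le_sup_left hLE K) hx

end Pool.Agent.U208.LD
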