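import Mathlib
import Pool.Agent.U208.LD.Frob
import Pool.Agent.U208.LD.Stage
import Pool.Agent.W189.NF.Residue

set_option autoImplicit false

/-!
# Infinite local degrees
-/

namespace Pool.Agent.U208.LD

open IsDedekindDomain NumberField IsLocalRing Module
open Pool.Agent.W189.NF (Ov card_residue)

variable {K : Type} [Field K] [NumberField K] (v : HeightOneSpectrum (𝓞 K))

instance charZero_completion : CharZero (v.adicCompletion K) :=
  charZero_of_injective_algebraMap (algebraMap K (v.adicCompletion K)).injective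

theorem exists_frob (p : ℕ) (hp : p.Prime) (hcop : (Ideal.absNorm v.asIdeal).Coprime p)
    (ζ : AlgebraicClosure (v.adicCompletion K)) (hζ : ζ ^ p = 1) :
    ∃ τ : AlgebraicClosure (v.adicCompletion K) ≃ₐ[v.adicCompletion K]
      AlgebraicClosure (v.adicCompletion K), τ ζ = ζ ^ Ideal.absNorm v.asIdeal := by
  have hcard := card_residue v
  have h0 : Ideal.absNorm v.asIdeal ≠ 0 := by
    have := NumberField.HeightOneSpectrum.one_lt_absNorm v
    omega
  have hfin : Finite (ResidueField (Ov v)) := Nat.finite_of_card_ne_zero (by rw [hcard]; exact h0)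
  have hpm : (p : Ov v) ∉ maximalIdeal (Ov v) := by
    intro h
    have h1 : ((p : ℕ) : ResidueField (Ov v)) = 0 := by
      rw [← map_natCast (residue (Ov v)), residue_eq_zero_iff]
      exact h
    have h2 : ((Ideal.absNorm v.asIdeal : ℕ) : ResidueField (Ov v)) = 0 := by
      have hft : Fintype (ResidueField (Ov v)) := Fintype.ofFinite _
      rw [← hcard, Nat.card_eq_fintype_card]
      exact Nat.cast_card_eq_zero (ResidueField (Ov v))
    obtain ⟨a, b, hab⟩ := Nat.isCoprime_iff_coprime.mpr hcop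
    have h3 := congrArg (fun t : ℤ => (t : ResidueField (Ov v))) hab
    push_cast at h3
    rw [h1, h2] at h3
    simp at h3
  obtain ⟨σ, hσ⟩ := exists_frob_cl (A := Ov v) (k := v.adicCompletion K) ζ p hζ hp.pos hpm
  rw [hcard] at hσ
  exact ⟨σ, hσ⟩

/-- two powers of an automorphism agree on a field of small degree -/
theorem exists_pow_fix {k : Type} [Field k] [CharZero k]
    (N : IntermediateField k (AlgebraicClosure k)) [FiniteDimensional k N]
    (τ : AlgebraicClosure k ≃ₐ[k] AlgebraicClosure k) :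
    ∃ m : ℕ, 0 < m ∧ m ≤ finrank k N ∧ ∀ x ∈ N, (τ ^ m) x = x := by
  classical
  let φ : Fin (finrank k N + 1) → (N →ₐ[k] AlgebraicClosure k) := fun s =>
    ((τ ^ (s : ℕ) : AlgebraicClosure k ≃ₐ[k] AlgebraicClosure k).toAlgHom).comp N.val
  have hcard : Fintype.card (N →ₐ[k] AlgebraicClosure k) ≤ finrank k N := by
    rw [AlgHom.card k N (AlgebraicClosure k)]
  obtain ⟨s, t, hst, hφ⟩ := Fintype.exists_ne_map_eq_of_card_lt φ
    (by rw [Fintype.card_fin]; omega)
  -- order the two exponents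
  wlog hlt : (s : ℕ) < t generalizing s t
  · refine this t s hst.symm hφ.symm ?_
    rcases Nat.lt_trichotomy (s : ℕ) t with h | h | h
    · exact absurd h hlt
    · exact absurd (Fin.ext h) hst
    · exact h
  refine ⟨(t : ℕ) - s, by omega, by have := t.2; omega, fun x hx => ?_⟩
  have h1 : (τ ^ (s : ℕ)) x = (τ ^ (t : ℕ)) x := DFunLike.congr_fun hφ (⟨x, hx⟩ : N)
  have h2 : (t : ℕ) = s + (t - s) := by omega
  rw [h2, pow_add, AlgEquiv.mul_apply] at h1
  exact ((τ ^ (s : ℕ)).injective h1).symm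

theorem pow_frob {k : Type} [Field k] (τ : AlgebraicClosure k ≃ₐ[k] AlgebraicClosure k)
    (ζ : AlgebraicClosure k) (q : ℕ) (h : τ ζ = ζ ^ q) : ∀ m : ℕ, (τ ^ m) ζ = ζ ^ (q ^ m) := by
  intro m
  induction m with
  | zero => simp
  | succ m ih =>
    rw [pow_succ, AlgEquiv.mul_apply, h, map_pow, ih, ← pow_mul, pow_succ]

/-- the local degree is infinite -/
theorem not_fin (F : Set Qb)
    (hF : ∀ n : ℕ, ∃ L : IntermediateField ℚ Qb, (∀ x ∈ L, x ∈ F) ∧
      LP L (Ideal.absNorm v.asIdeal) n)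
    (ι : Qb →+* AlgebraicClosure (v.adicCompletion K)) :
    ¬ FiniteDimensional (v.adicCompletion K)
        (IntermediateField.adjoin (v.adicCompletion K) (ι '' F)) := by
  intro hfd
  set N := IntermediateField.adjoin (v.adicCompletion K) (ι '' F) with hN
  obtain ⟨L, hLF, p, z, hp, hcop, hz, hL⟩ := hF (finrank (v.adicCompletion K) N)
  obtain ⟨τ, hτ⟩ := exists_frob v p hp hcop (ι z) (by rw [← map_pow, hz.pow_eq_one, map_one])
  obtain ⟨m, hm0, hmn, hm⟩ := exists_pow_fix N τ
  let ι' : Qb →+* AlgebraicClosure (v.adicCompletion K) :=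
    ((τ ^ m : AlgebraicClosure (v.adicCompletion K) ≃ₐ[v.adicCompletion K]
      AlgebraicClosure (v.adicCompletion K)).toRingEquiv.toRingHom).comp ι
  refine hL (AlgebraicClosure (v.adicCompletion K)) ι.toRatAlgHom ι'.toRatAlgHom m hm0 hmn ?_ ?_
  · exact pow_frob τ (ι z) _ hτ m
  · intro x hx
    exact hm (ι x) (IntermediateField.subset_adjoin _ _ ⟨x, hLF x hx, rfl⟩)

/-- only finitely many primes have even norm -/
theorem finite_even : {v : HeightOneSpectrum (𝓞 K) | ¬ Odd (Ideal.absNorm v.asIdeal)}.Finite := by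
  have h2 : (Ideal.span {(2 : 𝓞 K)}) ≠ 0 := by
    rw [Ne, Ideal.zero_eq_bot, Ideal.span_singleton_eq_bot]
    exact two_ne_zero
  refine (Ideal.finite_factors h2).subset ?_
  intro v hv
  rw [Set.mem_ofPred_eq, Nat.not_odd_iff_even] at hv
  rw [Set.mem_ofPred_eq, Ideal.dvd_span_singleton]
  have hcard : Nat.card (𝓞 K ⧸ v.asIdeal) = Ideal.absNorm v.asIdeal := rfl
  have hfin : Finite (𝓞 K ⧸ v.asIdeal) := Ideal.finiteQuotientOfFreeOfNeBot v.asIdeal v.ne_bot
  have hfact : Fact (Nat.Prime 2) := ⟨Nat.prime_two⟩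
  obtain ⟨x, hx⟩ := exists_prime_addOrderOf_dvd_card' (G := 𝓞 K ⧸ v.asIdeal) 2
    (by rw [hcard]; exact hv.two_dvd)
  have hx0 : x ≠ 0 := by
    rintro rfl
    rw [addOrderOf_zero] at hx
    omega
  have hx2 : (2 : 𝓞 K ⧸ v.asIdeal) * x = 0 := by
    have h1 := addOrderOf_nsmul_eq_zero x
    rw [hx] at h1
    rw [two_mul, ← two_nsmul]
    exact h1
  have hdom : IsDomain (𝓞 K ⧸ v.asIdeal) := Ideal.Quotient.isDomain _
  have h3 : (2 : 𝓞 K ⧸ v.asIdeal) = 0 := (mul_eq_zero.mp hx2).resolve_right hx0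
  rw [← Ideal.Quotient.eq_zero_iff_mem]
  exact h3

end Pool.Agent.U208.LD
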