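import Mathlib
import Pool.Agent.U208.LD.Stage

set_option autoImplicit false

/-!
# The field, and its points of small canonical height
-/

namespace Pool.Agent.U208.LD

open IntermediateField Module NumberField Filter Topology Polynomial
open Pool.Agent.Helper259.AbsHt
open Pool.Agent.H58W (hM lift small_limit_bound northcott)

theorem exists_field : ∃ (F : IntermediateField ℚ Qb) (f : ℕ → IntermediateField ℚ Qb),
    Normal ℚ F ∧ (∀ q n : ℕ, Odd q → 1 < q → ∃ L ≤ F, LP L q n) ∧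
    (∀ i, FiniteDimensional ℚ (f i)) ∧ (∀ x ∈ F, ∃ i, x ∈ f i) ∧ (f 0 = ⊥) ∧ Monotone f ∧
    ∀ i, ∀ x ∈ f (i + 1), x ∉ f i →
      (i : ℝ) * (finrank ℚ (f (i + 1)) : ℕ) + i < absLogHeight ![1, x] := by
  let St : Type := {K : IntermediateField ℚ Qb // FiniteDimensional ℚ K}
  have hex : ∀ (i : ℕ) (K : St), ∃ L : IntermediateField ℚ Qb, Normal ℚ L ∧
      FiniteDimensional ℚ L ∧ LP L (2 * i.unpair.1 + 3) i.unpair.2 ∧ ∀ x ∈ K.1 ⊔ L, x ∉ K.1 →
        (i : ℝ) * (finrank ℚ (K.1 ⊔ L : IntermediateField ℚ Qb) : ℕ) + i <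
          absLogHeight ![1, x] := by
    rintro i ⟨K, hK⟩
    exact stage K hK (2 * i.unpair.1 + 3) ⟨i.unpair.1 + 1, by ring⟩ (by omega) i.unpair.2 i
  choose L hLn hLfd hLP hLh using hex
  let f : ℕ → St := fun i => Nat.rec (⟨⊥, inferInstance⟩ : St)
    (fun i K => ⟨K.1 ⊔ L i K, by
      have := K.2
      have := hLfd i K
      infer_instance⟩) i
  have hf1 : ∀ i, (f (i + 1)).1 = (f i).1 ⊔ L i (f i) := fun i => rfl
  have hmono : Monotone fun i => (f i).1 := monotone_nat_of_le_succ fun i => le_sup_left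
  have hnorm : ∀ i, @Normal ℚ (L i (f i)) _ _ (IntermediateField.algebra' _) :=
    fun i => hLn i (f i)
  refine ⟨⨆ i, L i (f i), fun i => (f i).1, @IntermediateField.normal_iSup ℚ Qb _ _ _ ℕ
    (fun i => L i (f i)) hnorm, ?_,
    fun i => (f i).2, ?_, rfl, hmono, fun i => hLh i (f i)⟩
  · intro q n hq hq1
    obtain ⟨a, ha⟩ : ∃ a, q = 2 * a + 3 := by
      obtain ⟨b, hb⟩ := hq
      exact ⟨b - 1, by omega⟩
    refine ⟨L (Nat.pair a n) (f (Nat.pair a n)), le_iSup (fun i => L i (f i)) (Nat.pair a n), ?_⟩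
    have := hLP (Nat.pair a n) (f (Nat.pair a n))
    rw [Nat.unpair_pair] at this
    rw [ha]
    exact this
  · intro x hx
    have h1 : x ∈ ⨆ i, (f i).1 := by
      refine (iSup_mono' fun i => ⟨i + 1, ?_⟩ : (⨆ i, L i (f i)) ≤ ⨆ i, (f i).1) hx
      exact le_sup_right
    rw [← SetLike.mem_coe, IntermediateField.coe_iSup_of_directed hmono.directed_le,
      Set.mem_iUnion] at h1
    exact h1

/-- the points of small canonical height -/
theorem usb (F : IntermediateField ℚ Qb) (f : ℕ → IntermediateField ℚ Qb)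
    (hfd : ∀ i, FiniteDimensional ℚ (f i)) (hF : ∀ x ∈ F, ∃ i, x ∈ f i)
    (hmono : Monotone f)
    (hh : ∀ i, ∀ x ∈ f (i + 1), x ∉ f i →
      (i : ℝ) * (finrank ℚ (f (i + 1)) : ℕ) + i < absLogHeight ![1, x])
    (P Q : Qb[X]) (d : ℕ) (hd : max P.natDegree Q.natDegree = d)
    (hd2 : 2 ≤ d) (hco : IsCoprime P Q) :
    Set.Finite {α : Qb | α ∈ F ∧ ∃ L : ℝ, Tendsto (fun n : ℕ =>
      hM (((lift P Q d)^[n] (α, 1)).1 / ((lift P Q d)^[n] (α, 1)).2) / (d : ℝ) ^ n)
        atTop (𝓝 L) ∧ L < 1} := by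
  obtain ⟨m, hm⟩ := small_limit_bound P Q d hd hd2 hco
  refine (northcott (finrank ℚ (f m)) ((m : ℝ) * (finrank ℚ (f m) : ℕ) + m)).subset ?_
  rintro α ⟨hαF, L, hlim, hL⟩
  have hdeg : ∀ i, α ∈ f i → (minpoly ℚ α).natDegree ≤ finrank ℚ (f i) := by
    intro i hi
    have := hfd i
    have h1 : minpoly ℚ α = minpoly ℚ (⟨α, hi⟩ : f i) := by
      rw [← minpoly.algebraMap_eq (algebraMap (f i) Qb).injective]
      rfl
    rw [h1]
    exact minpoly.natDegree_le _
  have hbd : ∀ i, α ∈ f i → absLogHeight ![1, α] ≤ (m : ℝ) * (finrank ℚ (f i) : ℕ) + m :=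
    fun i hi => hm (finrank ℚ (f i)) α (hdeg i hi) L hL hlim
  have hmem : α ∈ f m := by
    by_contra hcon
    obtain ⟨i, hi⟩ := hF α hαF
    classical
    have hne : ∃ i, α ∈ f i := ⟨i, hi⟩
    set j := Nat.find hne with hj
    have hjm : α ∈ f j := Nat.find_spec hne
    have hj' : m < j := by
      by_contra h
      push Not at h
      exact hcon (hmono h hjm)
    obtain ⟨l, hl⟩ : ∃ l, j = l + 1 := ⟨j - 1, by omega⟩
    have hnl : α ∉ f l := Nat.find_min hne (by omega)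
    rw [hl] at hjm
    have h1 := hh l α hjm hnl
    have h2 := hbd (l + 1) hjm
    have h3 : (m : ℝ) ≤ l := by
      have : m ≤ l := by omega
      exact_mod_cast this
    have h4 : (0 : ℝ) ≤ (finrank ℚ (f (l + 1)) : ℕ) := Nat.cast_nonneg _
    nlinarith
  exact ⟨hdeg m hmem, hbd m hmem⟩

end Pool.Agent.U208.LD
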